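import Pool.Agent.R611.CX.S9

/-!
# Hensel minimality does not follow from Hensel minimality of a coarsening and its residue field

The valued fields, `RV`, preparation and the symbols of the language of valued fields are defined in
`Pool.Agent.R611.HM.Def`, the residue field with its induced structure in
`Pool.Agent.R611.CX.Def`.
-/

set_option autoImplicit false

namespace Pool.Agent.Results.MP_4ae68b_lc.CoarseningFails

open FirstOrder Language Structure Pool.Agent.R611.HM Pool.Agent.R611.CX IsLocalRing

universe u

/-- `X ⊆ K` is definable with parameters from `A ∪ A'`, where `A ⊆ K` and `A' ⊆ RV_lam`: there are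
finitely many `ζ_i ∈ A'` and an `A`-definable set `Y` such that `X` is the fibre of `Y` over every
tuple `w` of representatives of `ζ`. -/
def DefOver {K : Type u} [Field K] (O : ValuationSubring K) (L : FirstOrder.Language.{u, u})
    [L.Structure K] (lam : O.ValueGroup) (A : Set K) (A' : Set (RV O lam)) (X : Set K) : Prop :=
  ∃ (n : ℕ) (ζ : Fin n → RV O lam) (Y : Set (Option (Fin n) → K)),
    (∀ i, ζ i ∈ A') ∧ A.Definable L Y ∧
      ∀ w : Fin n → K, (∀ i, rv O lam (w i) = ζ i) → X = {x | (fun o => o.elim x w) ∈ Y}

/-- The condition of ω-h-minimality for a single valued field `K`: for every `lam ≤ 1` in the value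
group, every `A ⊆ K`, every finite `A' ⊆ RV_lam` and every `X ⊆ K` definable over `A ∪ A'`, some
finite `A`-definable `C ⊆ K` prepares `X` for `lam`. -/
def OmegaMin {K : Type u} [Field K] (O : ValuationSubring K) (L : FirstOrder.Language.{u, u})
    [L.Structure K] : Prop :=
  ∀ lam : O.ValueGroup, lam ≠ 0 → lam ≤ 1 → ∀ (A : Set K) (A' : Set (RV O lam)), A'.Finite →
    ∀ X : Set K, DefOver O L lam A A' X →
      ∃ C : Set K, C.Finite ∧ A.Definable₁ L C ∧ Prepared O lam C X

/-- The theory of the valued field `K` in the language `L` is ω-h-minimal: the condition holds for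
all models of the theory, with the valuation given by the symbol `sy.ring`. -/
def OmegaMinTh {L : FirstOrder.Language.{u, u}} (sy : ValSymbols L) (K : Type u)
    [L.Structure K] : Prop :=
  ∀ (K' : Type u) [L.Structure K'] [Field K'] (O' : ValuationSubring K'), K ≅[L] K' →
    IsValued sy O' → OmegaMin O' L

/-! ## The proof -/

theorem omegaMinTh_of {L : FirstOrder.Language.{u, u}} {sy : ValSymbols L} {K : Type u}
    [L.Structure K] (h : HMinTh sy K ⊤) : OmegaMinTh sy K := by
  intro K' _ _ O' hKK hO' lam h0 h1 A A' hA' X ⟨n, ζ, Y, hζ, hY, hX⟩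
  obtain ⟨C, hC, _, hCd, hCp⟩ := h K' O' hKK hO' lam h0 h1 A A' hA' le_top X
    ⟨0, n, fun i => i.elim0, ζ,
      (fun (g : Option (Fin 0 ⊕ Fin n) → K') => g ∘ (Option.map Sum.inr : Option (Fin n) → _)) ⁻¹' Y,
      hζ, hY.preimage_comp _, fun z w _ hw => by
        rw [hX w hw]
        ext x
        change (fun o : Option (Fin n) => o.elim x w) ∈ Y ↔
          ((fun o : Option (Fin 0 ⊕ Fin n) => o.elim x (Sum.elim z w)) ∘
            (Option.map Sum.inr : Option (Fin n) → _)) ∈ Y
        have e : ((fun o : Option (Fin 0 ⊕ Fin n) => o.elim x (Sum.elim z w)) ∘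
            (Option.map Sum.inr : Option (Fin n) → _)) =
            (fun o : Option (Fin n) => o.elim x w) := by
          funext o
          cases o <;> rfl
        rw [e]⟩
  exact ⟨C, hC, hCd, hCp⟩

theorem isValued_ind {L : FirstOrder.Language.{u, u}} {K : Type u} [L.Structure K] [Field K]
    {O Oc : ValuationSubring K} (h : O ≤ Oc) (B : Set K)
    (hn : ∀ n : ℕ, n ≠ 0 → O.valuation (n : K) = 1) (hc : CharZero (ResidueField Oc)) :
    letI := indStructure L O Oc h B
    IsValued (indSym L Oc B) (resRing O Oc h) := by
  let _ := indStructure L O Oc h B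
  refine ⟨fun x y => rfl, fun x y => rfl, fun x => Iff.rfl, ?_⟩
  refine charZero_of_nat _ fun n hn' => ?_
  have h0 : residue Oc (n : Oc) ≠ 0 := by
    rw [map_natCast]
    exact_mod_cast hn'
  have h1 : residue Oc 1 ≠ 0 := by
    rw [map_one]
    exact one_ne_zero
  have hv : O.valuation (n : K) = 1 := hn n hn'
  have e : (((n : Oc) : Oc) : K) = (n : K) := by simp
  have e1 := (res_le h (x := (n : Oc)) (y := 1) h1).2 (by
    rw [e, hv]
    simp)
  have e2 := (res_le h (x := 1) (y := (n : Oc)) h0).2 (by
    rw [e, hv]
    simp)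
  rw [map_natCast, map_one, map_one] at e1 e2
  exact le_antisymm e1 e2

/-- There are a language `L` expanding the language of valued fields, an `L`-structure `K` which is
a valued field of equicharacteristic zero with valuation ring `O`, and a proper non-trivial
coarsening with valuation ring `Oc`, given by a symbol of `L`, such that
* the theory of `K` is ω-h-minimal for the coarsened valuation;
* for every `B ⊆ K`, the theory of the residue field `k_c` of `Oc`, with the valuation ring
  `O/𝔪_c` and a predicate for each subset of a power of `k_c` that is definable in `K` with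
  parameters from `B`, is ω-h-minimal (`B = ∅` and `B = K` give the two readings of the
  structure induced from `K`);
* the theory of `K` is not ω-h-minimal for the valuation of `O`.

The two positive statements are proved for the definition of ω-h-minimality without parameters from
`RV` (`OmegaMinTh`) and for the stronger one with parameters from `RV` and non-empty `C`
(`HMinTh _ _ ⊤`); the negative one is proved for the weaker definition `OmegaMinTh`, hence it holds
for both. -/
theorem result : ∃ (L : FirstOrder.Language.{0, 0}) (sy syc : ValSymbols L) (K : Type)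
    (_ : L.Structure K) (_ : Field K) (O Oc : ValuationSubring K) (h : O ≤ Oc),
    O ≠ Oc ∧ Oc ≠ ⊤ ∧ IsValued sy O ∧ IsValued syc Oc ∧
    (OmegaMinTh syc K ∧ HMinTh syc K ⊤) ∧
    (∀ B : Set K, letI := indStructure L O Oc h B
      IsValued (indSym L Oc B) (resRing O Oc h) ∧
      OmegaMinTh (indSym L Oc B) (ResidueField Oc) ∧
      HMinTh (indSym L Oc B) (ResidueField Oc) ⊤) ∧
    ¬ OmegaMinTh sy K := by
  obtain ⟨K, iK, hac, hcount, O, Oc, s, t, u, hm⟩ := exists_mod_countable
  let iL : LC.Structure K :=
    { funMap := fun {_} f x => match f, x with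
        | CFun.add, x => x 0 + x 1
        | CFun.mul, x => x 0 * x 1
      RelMap := fun {_} r x => match r, x with
        | CRel.O, x => x 0 ∈ O
        | CRel.Oc, x => x 0 ∈ Oc
        | CRel.P, x => Oc.valuation (x 0 - s) < 1 }
  have hs1 : Oc.valuation s = 1 := by
    have := hm.hs Polynomial.X Polynomial.X_ne_zero
    rwa [Polynomial.eval₂_X] at this
  have hG : Good K O Oc :=
    ⟨⟨fun _ _ => rfl, fun _ _ => rfl, fun _ => Iff.rfl, charZero_of_nat _ hm.nat⟩,
      ⟨fun _ _ => rfl, fun _ _ => rfl, fun _ => Iff.rfl,
        charZero_of_nat _ (nat_of_le hm.le hm.nat)⟩, hm.le, hac, s, hs1, fun _ => Iff.rfl⟩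
  refine ⟨LC, syO, syc, K, iL, iK, O, Oc, hm.le, ?_, ?_, hG.isv, hG.isvc,
    ⟨omegaMinTh_of hG.hmin_c, hG.hmin_c⟩, fun B => ?_, ?_⟩
  · intro h
    exact hm.hu' (h ▸ hm.hu)
  · intro h
    have h1 : t⁻¹ ∈ Oc := by rw [h]; exact ValuationSubring.mem_top _
    rw [← Oc.valuation_le_one_iff, map_inv₀] at h1
    have h2 : 0 < Oc.valuation t := (Valuation.pos_iff _).2 hm.ht
    have h3 : 1 < (Oc.valuation t)⁻¹ := (one_lt_inv₀ h2).2 hm.ht'
    exact absurd h1 (not_le.2 h3)
  · let _ := indStructure LC O Oc hm.le B
    exact ⟨isValued_ind hm.le B hm.nat hG.isvc.char_zero,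
      omegaMinTh_of (hG.hmin_res B), hG.hmin_res B⟩
  · intro H
    have hsP : RelMap symP ![s] := by
      change Oc.valuation (s - s) < 1
      rw [sub_self, map_zero]
      exact zero_lt_one
    obtain ⟨C, hC, hCd, hCp⟩ := H K O (show LC.completeTheory K = LC.completeTheory K from rfl)
      hG.isv 1 one_ne_zero le_rfl ∅ ∅ Set.finite_empty {x | RelMap symP ![x]}
      ⟨0, fun i => i.elim0, {w | RelMap symP ![w none]}, fun i => i.elim0, by
        have : Df LC (fun w : Option (Fin 0) → K => RelMap symP ![w none]) :=
          df_rel1' _ (DfF.var none)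
        exact this, fun w _ => rfl⟩
    exact hG.not_prepared ⟨u, hm.hu, hm.hu'⟩ ⟨t, hm.ht, hm.ht'⟩ hsP hm.hs hC hCd hCp

end Pool.Agent.Results.MP_4ae68b_lc.CoarseningFails
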